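import Pool.Agent.H180R2.MM.Main

/-! Moser's problem for the squares of side `1/(2n+1)`: for every bound `ρ` on the aspect ratio and
every sufficiently large `n₀`, every rectangle of area `∑_{n ≥ n₀} 1/(2n+1)²` with aspect ratio at
most `ρ` is perfectly packed by the squares of side `1/(2n+1)`, `n ≥ n₀`. -/

namespace Pool.Agent.Results.MP_8ea1de_co.PerfectTailOdd

open Pool.Agent.H180R2.MM Set

theorem fam : Fam (fun n : ℕ => 1 / ((n : ℝ) + 1 / 2)) (fun n : ℕ => 1 / ((n : ℝ) + 1 / 2)) where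
  lo n hn := by
    have h : (1 : ℝ) ≤ n := by exact_mod_cast hn
    exact one_div_le_one_div_of_le (by linarith) (by linarith)
  le n _ := le_rfl
  up n hn := by
    have h : (1 : ℝ) ≤ n := by exact_mod_cast hn
    exact one_div_le_one_div_of_le (by linarith) (by linarith)
  near n hn := by simp
  lipx m n hm hmn := by
    have h : (1 : ℝ) ≤ m := by exact_mod_cast hm
    have h' : (m : ℝ) ≤ n := by exact_mod_cast hmn
    rw [div_sub_div _ _ (by linarith) (by linarith), div_le_div_iff₀ (by nlinarith) (by positivity)]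
    have h3 : (0 : ℝ) ≤ (n : ℝ) - m := by linarith
    have h4 : (m : ℝ) ^ 2 ≤ ((m : ℝ) + 1 / 2) * ((n : ℝ) + 1 / 2) := by nlinarith
    nlinarith
  lipy m n hm hmn := by
    have h : (1 : ℝ) ≤ m := by exact_mod_cast hm
    have h' : (m : ℝ) ≤ n := by exact_mod_cast hmn
    rw [div_sub_div _ _ (by linarith) (by linarith), div_le_div_iff₀ (by nlinarith) (by positivity)]
    have h3 : (0 : ℝ) ≤ (n : ℝ) - m := by linarith
    have h4 : (m : ℝ) ^ 2 ≤ ((m : ℝ) + 1 / 2) * ((n : ℝ) + 1 / 2) := by nlinarith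
    nlinarith
  lowx m n hm hmn := by
    have h : (1 : ℝ) ≤ m := by exact_mod_cast hm
    have h' : (m : ℝ) ≤ n := by exact_mod_cast hmn
    rw [div_sub_div _ _ (by linarith) (by linarith), div_le_div_iff₀ (by positivity) (by nlinarith)]
    have h3 : (0 : ℝ) ≤ (n : ℝ) - m := by linarith
    have h4 : ((m : ℝ) + 1 / 2) * ((n : ℝ) + 1 / 2) ≤ ((n : ℝ) + 1) ^ 2 := by nlinarith
    nlinarith
  lowy m n hm hmn := by
    have h : (1 : ℝ) ≤ m := by exact_mod_cast hm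
    have h' : (m : ℝ) ≤ n := by exact_mod_cast hmn
    rw [div_sub_div _ _ (by linarith) (by linarith), div_le_div_iff₀ (by positivity) (by nlinarith)]
    have h3 : (0 : ℝ) ≤ (n : ℝ) - m := by linarith
    have h4 : ((m : ℝ) + 1 / 2) * ((n : ℝ) + 1 / 2) ≤ ((n : ℝ) + 1) ^ 2 := by nlinarith
    nlinarith

theorem result : ∀ ρ : ℝ, ∃ N : ℕ, ∀ n₀ ≥ N, ∀ a b : ℝ, 0 < a → 0 < b → a ≤ ρ * b → b ≤ ρ * a →
    a * b = ∑' i : ℕ, 1 / (2 * ((n₀ + i : ℕ) : ℝ) + 1) ^ 2 →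
    ∃ u v : ℕ → ℝ,
      (∀ n ≥ n₀, 0 ≤ u n ∧ u n + 1 / (2 * (n : ℝ) + 1) ≤ a ∧
        0 ≤ v n ∧ v n + 1 / (2 * (n : ℝ) + 1) ≤ b) ∧
      ∀ m ≥ n₀, ∀ n ≥ n₀, m ≠ n →
        Disjoint (Ioo (u m) (u m + 1 / (2 * (m : ℝ) + 1)) ×ˢ Ioo (v m) (v m + 1 / (2 * (m : ℝ) + 1)))
          (Ioo (u n) (u n + 1 / (2 * (n : ℝ) + 1)) ×ˢ Ioo (v n) (v n + 1 / (2 * (n : ℝ) + 1))) := by
  intro ρ
  obtain ⟨N, hN⟩ := mainThm fam (max ρ 4) (le_max_right _ _)
  refine ⟨N, fun n₀ hn₀ a b ha hb hab hba harea => ?_⟩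
  have hab' := hab.trans (mul_le_mul_of_nonneg_right (le_max_left ρ 4) hb.le)
  have hba' := hba.trans (mul_le_mul_of_nonneg_right (le_max_left ρ 4) ha.le)
  obtain ⟨pos, h1, h2⟩ := hN n₀ hn₀ (2 * a) (2 * b) (by linarith) (by linarith)
    (by linarith) (by linarith)
    (by
      have : 2 * a * (2 * b) = 4 * (a * b) := by ring
      rw [this, harea, ← tsum_mul_left]
      apply tsum_congr
      intro i
      have : (0 : ℝ) ≤ ((n₀ + i : ℕ) : ℝ) := Nat.cast_nonneg _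
      field_simp
      ring)
  have hside : ∀ n : ℕ, 1 / ((n : ℝ) + 1 / 2) = 2 * (1 / (2 * (n : ℝ) + 1)) := by
    intro n
    have : (0 : ℝ) ≤ (n : ℝ) := Nat.cast_nonneg _
    field_simp
  have hw : ∀ n ≥ n₀, (pos n).w = 2 * (1 / (2 * (n : ℝ) + 1)) ∧
      (pos n).h = 2 * (1 / (2 * (n : ℝ) + 1)) := by
    intro n hn
    have := (h1 n hn).1
    unfold Match Pool.Agent.H180R2.MM.sq at this
    simp only [or_self] at this
    rw [hside] at this
    exact this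
  refine ⟨fun n => (pos n).x / 2, fun n => (pos n).y / 2, ?_, ?_⟩
  · intro n hn
    obtain ⟨g1, g2, g3, g4⟩ := (h1 n hn).2
    obtain ⟨e1, e2⟩ := hw n hn
    simp only at g1 g2 g3 g4
    rw [e1] at g3
    rw [e2] at g4
    exact ⟨by linarith, by linarith, by linarith, by linarith⟩
  · intro m hm n hn hmn
    have hd := h2 m hm n hn hmn
    obtain ⟨e1, e2⟩ := hw n hn
    obtain ⟨e3, e4⟩ := hw m hm
    unfold Disj at hd
    rw [e1, e2, e3, e4] at hd
    rw [Set.disjoint_left]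
    rintro ⟨p, q⟩ ⟨hp1, hq1⟩ ⟨hp2, hq2⟩
    simp only [mem_Ioo] at hp1 hq1 hp2 hq2
    rcases hd with h | h | h | h <;> linarith [hp1.1, hp1.2, hq1.1, hq1.2, hp2.1, hp2.2, hq2.1, hq2.2]

end Pool.Agent.Results.MP_8ea1de_co.PerfectTailOdd
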